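import Pool.Agent.H23.LC.Targets2
import Pool.Agent.H23.GLM.GammaRatio

/-!
# GR: the quotient of the Gamma factors
-/

set_option autoImplicit false

open NumberField NumberField.InfinitePlace Complex

namespace Pool.Agent.H3.LC

open Pool.Agent.H23.LC Pool.Agent.H23.GLM Pool.Agent.H25.HK

theorem norm_Gammaℝ_conj (z : ℂ) : ‖Gammaℝ ((starRingEnd ℂ) z)‖ = ‖Gammaℝ z‖ := by
  have e : (starRingEnd ℂ) z / 2 = (starRingEnd ℂ) (z / 2) := by
    rw [map_div₀, Complex.conj_ofNat]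
  rw [Gammaℝ_def, Gammaℝ_def, norm_mul, norm_mul, e, Complex.Gamma_conj, Complex.norm_conj,
    Complex.norm_cpow_eq_rpow_re_of_pos Real.pi_pos,
    Complex.norm_cpow_eq_rpow_re_of_pos Real.pi_pos]
  congr 2
  rw [neg_div, neg_div, neg_re, neg_re, e, conj_re]

/-- the ratio, with the end points -/
theorem ratioR {x : ℝ} (hx : 0 ≤ x) (hx1 : x ≤ 1) {z : ℂ} (hz : 0 ≤ z.re) :
    ‖Gammaℝ (z + x) * (Gammaℝ (z - x))⁻¹‖ ≤ AR * (1 + ‖z‖) ^ x := by
  have hA := AR_ge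
  rcases hx.eq_or_lt with rfl | hx0
  · rw [ofReal_zero, add_zero, sub_zero, Real.rpow_zero, mul_one]
    by_cases h : Gammaℝ z = 0
    · rw [h]
      simp
      linarith
    · rw [mul_inv_cancel₀ h, norm_one]
      linarith
  rcases hx1.eq_or_lt with rfl | hx1'
  · rw [Real.rpow_one, ofReal_one]
    have hR : 0 ≤ AR * (1 + ‖z‖) := by positivity
    by_cases h1 : z - 1 = 0
    · have h2 : (Gammaℝ (z - 1))⁻¹ = 0 := by
        rw [h1, inv_eq_zero, Gammaℝ_eq_zero_iff]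
        exact ⟨0, by simp⟩
      rw [h2, mul_zero, norm_zero]
      exact hR
    · have h2 := Gammaℝ_add_two h1
      have e : z - 1 + 2 = z + 1 := by ring
      rw [e] at h2
      by_cases h3 : Gammaℝ (z - 1) = 0
      · rw [h3, inv_zero, mul_zero, norm_zero]
        exact hR
      have h4 : Gammaℝ (z + 1) * (Gammaℝ (z - 1))⁻¹ = (z - 1) / 2 / Real.pi := by
        rw [h2]
        field_simp
      rw [h4, norm_div, norm_div, Complex.norm_real, Real.norm_of_nonneg Real.pi_pos.le]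
      have h5 : ‖z - 1‖ ≤ ‖z‖ + 1 := (norm_sub_le _ _).trans (by rw [norm_one])
      have h6 : ‖(2 : ℂ)‖ = 2 := by simp
      rw [h6]
      have hpi : 3 < Real.pi := Real.pi_gt_three
      have h7 : ‖z - 1‖ / 2 / Real.pi ≤ ‖z - 1‖ := by
        rw [div_div]
        exact div_le_self (norm_nonneg _) (by linarith)
      have h8 : 0 ≤ ‖z‖ := norm_nonneg _
      nlinarith
  · exact norm_Gammaℝ_ratio hx0 hx1' hz

/-- the factor of real type -/
theorem fac_real {s : ℂ} (hs : 1 / 2 ≤ s.re) (hs' : s.re ≤ 3 / 2) {κ : ℝ} (hκ : 0 ≤ κ) {ν T : ℝ}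
    (hT : 1 ≤ T) (hκT : κ ≤ 1 + T / 2) (hν : |ν| ≤ T) :
    ‖Gammaℝ (s + κ + ν * I) * (Gammaℝ (1 - s + κ - ν * I))⁻¹‖ ≤
      4 * AR * (T + |s.im|) ^ (s.re - 1 / 2) := by
  have hA := AR_ge
  obtain ⟨z, hz⟩ : ∃ z : ℂ, z = ((1 / 2 + κ : ℝ) : ℂ) + ((s.im + ν : ℝ) : ℂ) * I := ⟨_, rfl⟩
  obtain ⟨x, hx⟩ : ∃ x : ℝ, x = s.re - 1 / 2 := ⟨_, rfl⟩
  have hx0 : 0 ≤ x := by rw [hx]; linarith
  have hx1 : x ≤ 1 := by rw [hx]; linarith
  have hzre : z.re = 1 / 2 + κ := by rw [hz]; simp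
  have hzim : z.im = s.im + ν := by rw [hz]; simp
  have e1 : s + κ + ν * I = z + x := by
    apply Complex.ext
    · rw [add_re, add_re, add_re, hzre, hx]
      simp
      ring
    · rw [add_im, add_im, add_im, hzim, hx]
      simp
  have e2 : (starRingEnd ℂ) (1 - s + κ - ν * I) = z - x := by
    apply Complex.ext
    · rw [conj_re, sub_re, sub_re, add_re, sub_re, hzre, hx]
      simp
      ring
    · rw [conj_im, sub_im, sub_im, add_im, sub_im, hzim, hx]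
      simp
      ring
  have h1 : ‖Gammaℝ (s + κ + ν * I) * (Gammaℝ (1 - s + κ - ν * I))⁻¹‖ =
      ‖Gammaℝ (z + x) * (Gammaℝ (z - x))⁻¹‖ := by
    rw [norm_mul, norm_mul, norm_inv, norm_inv, e1, ← norm_Gammaℝ_conj (1 - s + κ - ν * I), e2]
  rw [h1]
  refine (ratioR hx0 hx1 (by rw [hzre]; linarith)).trans ?_
  have hn : ‖z‖ ≤ 1 / 2 + κ + (|s.im| + |ν|) := by
    rw [hz]
    refine (norm_add_le _ _).trans ?_
    rw [norm_mul, norm_I, mul_one, Complex.norm_real, Complex.norm_real,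
      Real.norm_of_nonneg (by linarith : (0 : ℝ) ≤ 1 / 2 + κ), Real.norm_eq_abs]
    have := abs_add_le s.im ν
    linarith
  have him : 0 ≤ |s.im| := abs_nonneg _
  have h2 : 1 + ‖z‖ ≤ 4 * (T + |s.im|) := by linarith
  have h3 : (1 + ‖z‖) ^ x ≤ 4 * (T + |s.im|) ^ x := by
    calc (1 + ‖z‖) ^ x ≤ (4 * (T + |s.im|)) ^ x :=
          Real.rpow_le_rpow (by positivity) h2 hx0
      _ = 4 ^ x * (T + |s.im|) ^ x := Real.mul_rpow (by norm_num) (by linarith)
      _ ≤ 4 * (T + |s.im|) ^ x := by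
          refine mul_le_mul_of_nonneg_right ?_ (by positivity)
          calc (4 : ℝ) ^ x ≤ 4 ^ (1 : ℝ) := Real.rpow_le_rpow_of_exponent_le (by norm_num) hx1
            _ = 4 := Real.rpow_one 4
  rw [hx] at h3 ⊢
  calc AR * (1 + ‖z‖) ^ (s.re - 1 / 2) ≤ AR * (4 * (T + |s.im|) ^ (s.re - 1 / 2)) :=
        mul_le_mul_of_nonneg_left h3 (by linarith)
    _ = _ := by ring

/-- GR -/
theorem pf_GR : U_GR2 := by
  intro n
  have hA := AR_ge
  refine ⟨(4 * AR) ^ n, by positivity, ?_⟩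
  intro K _ _ hn k ν T hk hT hb s hs hs'
  classical
  obtain ⟨B, hB⟩ : ∃ B : ℝ, B = T + |s.im| := ⟨_, rfl⟩
  have hB1 : 1 ≤ B := by
    have := abs_nonneg s.im
    rw [hB]
    linarith
  obtain ⟨x, hx⟩ : ∃ x : ℝ, x = s.re - 1 / 2 := ⟨_, rfl⟩
  have hx0 : 0 ≤ x := by rw [hx]; linarith
  rw [← hB, ← hx]
  have hBx : 0 ≤ B ^ x := Real.rpow_nonneg (by linarith) _
  unfold gG
  rw [← Finset.prod_inv_distrib, ← Finset.prod_mul_distrib, norm_prod]
  have key : ∀ v : InfinitePlace K,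
      ‖(if v.IsReal then Gammaℝ (s + k v - (-ν) v * I)
          else Gammaℂ (s + |(k v : ℝ)| / 2 - (-ν) v * I)) *
        (if v.IsReal then Gammaℝ (1 - s + k v - ν v * I)
          else Gammaℂ (1 - s + |(k v : ℝ)| / 2 - ν v * I))⁻¹‖ ≤ (4 * AR * B ^ x) ^ v.mult := by
    intro v
    obtain ⟨hν, hkv⟩ := hb v
    have eν : (((-ν) v : ℝ) : ℂ) = -(ν v : ℂ) := by
      rw [Pi.neg_apply, ofReal_neg]
    by_cases hv : v.IsReal
    · rw [if_pos hv, if_pos hv]
      have hm : v.mult = 1 := by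
        unfold InfinitePlace.mult
        rw [if_pos hv]
      rw [hm, pow_one]
      obtain ⟨κ, hκ⟩ : ∃ κ : ℝ, κ = (k v : ℝ) := ⟨_, rfl⟩
      have hκ0 : 0 ≤ κ ∧ κ ≤ 1 := by
        rcases hk v hv with h | h <;> rw [hκ, h] <;> norm_num
      have h1 := fac_real hs hs' hκ0.1 hT (by linarith [hκ0.2]) hν
      rw [← hB, ← hx] at h1
      have e1 : s + (k v : ℂ) - (((-ν) v : ℝ) : ℂ) * I = s + κ + ν v * I := by
        rw [eν, hκ]
        push_cast
        ring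
      have e2 : 1 - s + (k v : ℂ) - ν v * I = 1 - s + κ - ν v * I := by
        rw [hκ]
        push_cast
        ring
      rw [e1, e2]
      exact h1
    · rw [if_neg hv, if_neg hv]
      have hm : v.mult = 2 := by
        unfold InfinitePlace.mult
        rw [if_neg hv]
      rw [hm, ← Gammaℝ_mul_Gammaℝ_add_one, ← Gammaℝ_mul_Gammaℝ_add_one]
      obtain ⟨κ, hκ⟩ : ∃ κ : ℝ, κ = |(k v : ℝ)| / 2 := ⟨_, rfl⟩
      have hκ0 : 0 ≤ κ := by rw [hκ]; positivity
      have hκT : κ ≤ T / 2 := by rw [hκ]; linarith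
      have h1 := fac_real hs hs' hκ0 hT (by linarith) hν
      have h2 := fac_real hs hs' (κ := κ + 1) (by linarith) hT (by linarith) hν
      rw [← hB, ← hx] at h1 h2
      have e1 : s + |(k v : ℝ)| / 2 - (((-ν) v : ℝ) : ℂ) * I = s + κ + ν v * I := by
        rw [eν, hκ]
        push_cast
        ring
      have e2 : 1 - s + |(k v : ℝ)| / 2 - ν v * I = 1 - s + κ - ν v * I := by
        rw [hκ]
        push_cast
        ring
      have e3 : s + κ + ν v * I + 1 = s + ((κ + 1 : ℝ) : ℂ) + ν v * I := by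
        push_cast
        ring
      have e4 : 1 - s + κ - ν v * I + 1 = 1 - s + ((κ + 1 : ℝ) : ℂ) - ν v * I := by
        push_cast
        ring
      rw [e1, e2, e3, e4]
      have e5 : Gammaℝ (s + κ + ν v * I) * Gammaℝ (s + ((κ + 1 : ℝ) : ℂ) + ν v * I) *
          (Gammaℝ (1 - s + κ - ν v * I) * Gammaℝ (1 - s + ((κ + 1 : ℝ) : ℂ) - ν v * I))⁻¹ =
          (Gammaℝ (s + κ + ν v * I) * (Gammaℝ (1 - s + κ - ν v * I))⁻¹) *
          (Gammaℝ (s + ((κ + 1 : ℝ) : ℂ) + ν v * I) *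
            (Gammaℝ (1 - s + ((κ + 1 : ℝ) : ℂ) - ν v * I))⁻¹) := by
        rw [mul_inv]
        ring
      rw [e5, norm_mul, sq]
      exact mul_le_mul h1 h2 (norm_nonneg _) (by positivity)
  refine (Finset.prod_le_prod (fun v _ => norm_nonneg _) fun v _ => key v).trans ?_
  rw [Finset.prod_pow_eq_pow_sum, InfinitePlace.sum_mult_eq, hn, mul_pow]
  refine le_of_eq ?_
  congr 1
  rw [← Real.rpow_natCast, ← Real.rpow_mul (by linarith)]
  congr 1
  ring

end Pool.Agent.H3.LC
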